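import Pool.Agent.Helper61.CAR.GoalsQ

/-!
Project CAR (MP_d97caa_an), packet CAR-PU: approximation of a finite set of functions by finitely many values.
-/

set_option autoImplicit false

namespace Pool.Agent.Helper5.CAR

open Pool.Agent.Helper61.CAR Pool.Agent.Helper34.CAR
open scoped ZeroAtInfty
open Filter Topology

theorem unif {E : Type} [NonUnitalCStarAlgebra E] (f : C₀(ℝ, E)) {ε : ℝ} (hε : 0 < ε) :
    ∃ r : ℝ, 0 < r ∧ ∀ t t' : ℝ, |t - t'| < r → ‖f t - f t'‖ ≤ ε := by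
  have h := ZeroAtInftyContinuousMap.uniformContinuous f
  obtain ⟨r, hr, h⟩ := Metric.uniformContinuous_iff.1 h ε hε
  refine ⟨r, hr, fun t t' ht => ?_⟩
  have h1 := @h t t' (by rw [Real.dist_eq]; exact ht)
  rw [dist_eq_norm] at h1
  exact h1.le

theorem decay {E : Type} [NonUnitalCStarAlgebra E] (f : C₀(ℝ, E)) {ε : ℝ} (hε : 0 < ε) :
    ∃ R : ℝ, ∀ t : ℝ, R < |t| → ‖f t‖ ≤ ε := by
  have h : Tendsto f (cocompact ℝ) (𝓝 0) := zero_at_infty f
  have h1 : ∀ᶠ t in cocompact ℝ, ‖f t‖ < ε := by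
    have h2 := h.norm
    rw [norm_zero] at h2
    exact h2.eventually (gt_mem_nhds hε)
  rw [← Metric.cobounded_eq_cocompact] at h1
  obtain ⟨R, -, hR⟩ := (Metric.hasBasis_cobounded_compl_closedBall (0 : ℝ)).eventually_iff.1 h1
  refine ⟨R, fun t ht => (hR ?_).le⟩
  rw [Set.mem_compl_iff, Metric.mem_closedBall, Real.dist_eq, sub_zero, not_le]
  exact ht

theorem pu (hTENT : S_TENT) : S_PU := by
  classical
  intro E _ F ε hε
  have hε2 : 0 < ε / 2 := by positivity
  -- a common radius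
  have hr : ∀ F : Finset C₀(ℝ, E), ∃ r : ℝ, 0 < r ∧ ∀ f ∈ F, ∀ t t' : ℝ, |t - t'| < r →
      ‖f t - f t'‖ ≤ ε / 2 := by
    intro F
    induction F using Finset.induction_on with
    | empty => exact ⟨1, one_pos, by simp⟩
    | insert f F _ ih =>
      obtain ⟨r, hr, h⟩ := ih
      obtain ⟨r', hr', h'⟩ := unif f hε2
      refine ⟨min r r', lt_min hr hr', fun g hg t t' ht => ?_⟩
      rcases Finset.mem_insert.1 hg with rfl | hg
      · exact h' t t' (ht.trans_le (min_le_right _ _))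
      · exact h g hg t t' (ht.trans_le (min_le_left _ _))
  have hR : ∀ F : Finset C₀(ℝ, E), ∃ R : ℝ, ∀ f ∈ F, ∀ t : ℝ, R < |t| → ‖f t‖ ≤ ε / 2 := by
    intro F
    induction F using Finset.induction_on with
    | empty => exact ⟨1, by simp⟩
    | insert f F _ ih =>
      obtain ⟨R, h⟩ := ih
      obtain ⟨R', h'⟩ := decay f hε2
      refine ⟨max R R', fun g hg t ht => ?_⟩
      rcases Finset.mem_insert.1 hg with rfl | hg
      · exact h' t ((le_max_right _ _).trans_lt ht)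
      · exact h g hg t ((le_max_left _ _).trans_lt ht)
  obtain ⟨r, hr0, hr⟩ := hr F
  obtain ⟨R, hR⟩ := hR F
  obtain ⟨hl0, hl1, -, hsum1, hsum2, -, hsupp, hcont⟩ := hTENT r hr0
  obtain ⟨n0, hn0⟩ := exists_nat_ge (R / r)
  have hn0R : R ≤ n0 * r := by rwa [div_le_iff₀ hr0] at hn0
  let g : ℤ → C₀(ℝ, ℝ) := fun i =>
    { toFun := fun t => Real.sqrt (lam r i t)
      continuous_toFun := Real.continuous_sqrt.comp (hcont i)
      zero_at_infty' := by
        have h1 : HasCompactSupport (fun t => Real.sqrt (lam r i t)) := by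
          refine HasCompactSupport.intro (isCompact_closedBall (i * r : ℝ) r) ?_
          intro t ht
          have h2 : lam r i t = 0 := by
            by_contra h3
            apply ht
            rw [Metric.mem_closedBall, Real.dist_eq]
            exact (hsupp i t h3).le
          simp only [h2, Real.sqrt_zero]
        exact h1.is_zero_at_infty }
  have hg : ∀ i t, g i t ^ 2 = lam r i t := by
    intro i t
    change Real.sqrt (lam r i t) ^ 2 = _
    exact Real.sq_sqrt (hl0 i t)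
  have hs : ∀ φ : ℤ → ℝ, ∑ i : Finset.Icc (-(n0 : ℤ)) n0, φ (i : ℤ) =
      ∑ i ∈ Finset.Icc (-(n0 : ℤ)) n0, φ i := fun φ => Finset.sum_coe_sort _ φ
  refine ⟨Finset.Icc (-(n0 : ℤ)) n0, inferInstance, inferInstance, fun i => (i : ℤ) * r,
    fun i => g i, fun i t => Real.sqrt_nonneg _, fun t => ?_, fun f hf t => ?_⟩
  · simp only [hg]
    rw [hs (fun i => lam r i t)]
    exact hsum1 n0 t
  · simp only [hg]
    set μ : ℝ := ∑ i ∈ Finset.Icc (-(n0 : ℤ)) n0, lam r i t with hμ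
    have hμ1 : μ ≤ 1 := hsum1 n0 t
    have e1 : (∑ i : Finset.Icc (-(n0 : ℤ)) n0, ((lam r i t : ℝ) : ℂ) • f (((i : ℤ) : ℝ) * r)) -
        f t = (∑ i ∈ Finset.Icc (-(n0 : ℤ)) n0,
          ((lam r i t : ℝ) : ℂ) • (f ((i : ℝ) * r) - f t)) - ((1 - μ : ℝ) : ℂ) • f t := by
      rw [Finset.sum_coe_sort (Finset.Icc (-(n0 : ℤ)) n0)
        (fun i : ℤ => ((lam r i t : ℝ) : ℂ) • f ((i : ℝ) * r))]
      simp only [smul_sub, Finset.sum_sub_distrib]
      rw [← Finset.sum_smul, ← Complex.ofReal_sum, ← hμ]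
      push_cast
      rw [sub_smul, one_smul]
      abel
    rw [e1]
    have e2 : ‖∑ i ∈ Finset.Icc (-(n0 : ℤ)) n0,
          ((lam r i t : ℝ) : ℂ) • (f ((i : ℝ) * r) - f t)‖ ≤ μ * (ε / 2) := by
      rw [hμ, Finset.sum_mul]
      refine norm_sum_le_of_le _ fun i _ => ?_
      rw [norm_smul, Complex.norm_real, Real.norm_eq_abs, abs_of_nonneg (hl0 i t)]
      by_cases h0 : lam r i t = 0
      · rw [h0, zero_mul, zero_mul]
      · refine mul_le_mul_of_nonneg_left ?_ (hl0 i t)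
        refine hr f hf _ _ ?_
        rw [abs_sub_comm]
        exact hsupp i t h0
    have e3 : ‖((1 - μ : ℝ) : ℂ) • f t‖ ≤ (1 - μ) * (ε / 2) := by
      rw [norm_smul, Complex.norm_real, Real.norm_eq_abs, abs_of_nonneg (by linarith)]
      by_cases h0 : |t| ≤ n0 * r
      · have h1 : μ = 1 := hsum2 n0 t h0
        rw [h1, sub_self, zero_mul, zero_mul]
      · refine mul_le_mul_of_nonneg_left ?_ (by linarith)
        exact hR f hf t (hn0R.trans_lt (not_le.1 h0))
    calc ‖(∑ i ∈ Finset.Icc (-(n0 : ℤ)) n0,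
          ((lam r i t : ℝ) : ℂ) • (f ((i : ℝ) * r) - f t)) - ((1 - μ : ℝ) : ℂ) • f t‖
        ≤ ‖∑ i ∈ Finset.Icc (-(n0 : ℤ)) n0,
          ((lam r i t : ℝ) : ℂ) • (f ((i : ℝ) * r) - f t)‖ + ‖((1 - μ : ℝ) : ℂ) • f t‖ :=
          norm_sub_le _ _
      _ ≤ μ * (ε / 2) + (1 - μ) * (ε / 2) := add_le_add e2 e3
      _ = ε / 2 := by ring
      _ < ε := by linarith

end Pool.Agent.Helper5.CAR
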